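import Pool.Agent.P.MP_3bc45c_nt.FF.CharTwo

/-!
The lower half of the conjecture of Cramér for polynomials over a finite field of characteristic
two: the short interval of the `q ^ (2 k + 1)` polynomials `f + a` with `deg a ≤ 2 k` contains no
irreducible polynomial, for a monic `f` of degree less than `4 q ^ (k + 1) / (q - 1)`.
-/

open Polynomial

theorem Pool.Agent.Results.MP_3bc45c_nt.GapCharTwo.result (K : Type*) [Field K] [Fintype K]
    [CharP K 2] (k : ℕ) (hk : 1 ≤ k) :
    ∃ f : K[X], f.Monic ∧ 2 * k < f.natDegree ∧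
      (Fintype.card K - 1) * f.natDegree < 4 * Fintype.card K ^ (k + 1) ∧
      ∀ a : K[X], a.degree ≤ (2 * k : ℕ) → ¬ Irreducible (f + a) :=
  Pool.Agent.P.MP_3bc45c_nt.FF.gap_two k hk
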