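import Pool.Agent.P.MP_3bc45c_nt.LongRun

/-!
Long gaps between consecutive primes, in every interval, with the explicit constant `1/4`.
`Nat.nth Nat.Prime n` is the `(n+1)`-st prime. Taking `A = X / 4` gives
`G(X) ≥ (1/4 - ε) log X (log₂ X)^2 log₄ X / (log₃ X)^2` for all large `X`.
-/

open Finset Real Filter

namespace Pool.Agent.Results.MP_3bc45c_nt.LongGaps

open Pool.Agent.P.MP_3bc45c_nt

theorem result : ∀ ε : ℝ, 0 < ε → ∃ X₀ : ℝ, ∀ X : ℝ, X₀ ≤ X → ∀ A : ℝ, X / 4 ≤ A →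
    ∃ (n : ℕ) (u v : ℝ), A ≤ u ∧ v ≤ A + X / 4 ∧
      (Nat.nth Nat.Prime n : ℝ) ≤ u ∧ v ≤ (Nat.nth Nat.Prime (n + 1) : ℝ) ∧
      (Nat.nth Nat.Prime (n + 1) : ℝ) ≤ 2 * A + X / 2 ∧
      (1 / 4 - ε) * (log X * log (log X) ^ 2 * log (log (log (log X))) / log (log (log X)) ^ 2)
        ≤ v - u := by
  intro ε hε
  obtain ⟨η, hη, hη1, hηε⟩ : ∃ η : ℝ, 0 < η ∧ η ≤ 1 / 160 ∧ 20 * η ≤ ε :=
    ⟨min (1 / 160) (ε / 20), by positivity, min_le_left _ _,
      by linarith [min_le_right (1 / 160) (ε / 20)]⟩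
  have t1 : Tendsto (fun Z : ℝ => log Z) atTop atTop := tendsto_log_atTop
  have t2 : Tendsto (fun Z : ℝ => log (log Z)) atTop atTop := t1.comp t1
  have t3 : Tendsto (fun Z : ℝ => log (log (log Z))) atTop atTop := t1.comp t2
  have key : ∀ᶠ Z : ℝ in atTop, ∀ A : ℝ, exp Z / 4 ≤ A →
      ∃ (n : ℕ) (u v : ℝ), A ≤ u ∧ v ≤ A + exp Z / 4 ∧
      (Nat.nth Nat.Prime n : ℝ) ≤ u ∧ v ≤ (Nat.nth Nat.Prime (n + 1) : ℝ) ∧
      (Nat.nth Nat.Prime (n + 1) : ℝ) ≤ 2 * A + exp Z / 2 ∧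
      (1 / 4 - ε) * (Z * log Z ^ 2 * log (log (log Z)) / log (log Z) ^ 2) ≤ v - u := by
    filter_upwards [long_run hη (by linarith), eventually_ge_atTop 8, t1.eventually_ge_atTop 2,
      t1.eventually (ev_pow_log 4 1), t2.eventually_ge_atTop 1, t3.eventually_ge_atTop 1]
      with Z hrun hZ hL hL₂ hL₂1 hL₃ A hA
    obtain ⟨F, hF⟩ : ∃ F, Z * log Z ^ 2 * log (log (log Z)) / log (log Z) ^ 2 = F := ⟨_, rfl⟩
    have hF1 : 16 * Z ≤ F := by
      rw [← hF, le_div_iff₀ (by positivity)]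
      have h1 : (4 * log (log Z)) ^ 2 ≤ log Z ^ 2 :=
        pow_le_pow_left₀ (by positivity) (by simpa using hL₂) 2
      calc 16 * Z * log (log Z) ^ 2 = Z * (4 * log (log Z)) ^ 2 * 1 := by ring
        _ ≤ _ := by gcongr
    rw [hF] at hrun ⊢
    have hc : F / 8 ≤ (1 / 4 - 20 * η) * F := by nlinarith
    have hy1 := Nat.lt_floor_add_one ((1 / 4 - 20 * η) * F)
    have hy2 : (⌊(1 / 4 - 20 * η) * F⌋₊ : ℝ) ≤ (1 / 4 - 20 * η) * F := Nat.floor_le (by linarith)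
    obtain ⟨y, hy⟩ : ∃ y, ⌊(1 / 4 - 20 * η) * F⌋₊ = y := ⟨_, rfl⟩
    rw [hy] at hy1 hy2
    have hA0 : 0 ≤ A := le_trans (by positivity) hA
    obtain ⟨m, hm1, hm2, hm3⟩ := hrun y (by linarith) hy2 ⌈A⌉₊
    have hZe : Z + 1 ≤ exp Z := add_one_le_exp Z
    have hZe2 : 16 ≤ exp Z := by
      have h1 : exp Z = exp (Z / 2) * exp (Z / 2) := by rw [← exp_add]; congr 1; ring
      have h2 : 4 ≤ exp (Z / 2) := by linarith [add_one_le_exp (Z / 2)]
      rw [h1]; nlinarith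
    have hAm : A ≤ m := (Nat.le_ceil A).trans (by exact_mod_cast hm1)
    have hmA : (m : ℝ) + y + 1 ≤ A + exp Z / 4 := by
      linarith [Nat.ceil_lt_add_one hA0]
    have hm4 : 4 ≤ m := by
      have : (4 : ℝ) ≤ m := by linarith
      exact_mod_cast this
    have hsmall : exp (Z / log Z ^ 2) < m := by
      have h1 : Z / log Z ^ 2 ≤ Z / 4 :=
        div_le_div_of_nonneg_left (by linarith) (by norm_num) (by nlinarith)
      have h2 : exp Z = exp (Z / 4) * exp (3 * Z / 4) := by rw [← exp_add]; congr 1; ring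
      have h3 : 7 ≤ exp (3 * Z / 4) := by linarith [add_one_le_exp (3 * Z / 4)]
      have h4 := exp_le_exp.mpr h1
      nlinarith [exp_pos (Z / 4)]
    have hnp : ∀ n ∈ Ioc 0 y, ¬ (m + n).Prime := fun n hn hp => by
      obtain ⟨p, h1, h2, h3⟩ := hm3 n hn
      have h4 := (Nat.prime_dvd_prime_iff_eq h1 hp).mp h3
      have h5 : (p : ℝ) < m := h2.trans_lt hsmall
      have h6 : p < m := by exact_mod_cast h5
      omega
    have hinf := Nat.infinite_setOfPred_prime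
    obtain ⟨c, hc⟩ : ∃ c, Nat.count Nat.Prime (m + 1) = c + 1 := by
      apply Nat.exists_eq_succ_of_ne_zero
      have h1 : Nat.count Nat.Prime 3 ≤ Nat.count Nat.Prime (m + 1) :=
        Nat.count_monotone _ (by omega)
      have h2 : Nat.count Nat.Prime 3 = 1 := by decide
      omega
    have h1 : Nat.nth Nat.Prime c < m + 1 := Nat.nth_lt_of_lt_count (by omega)
    have h2 : m + 1 ≤ Nat.nth Nat.Prime (c + 1) := hc ▸ Nat.le_nth_count hinf (m + 1)
    have h3 : m + y + 1 ≤ Nat.nth Nat.Prime (c + 1) := by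
      by_contra h
      refine hnp (Nat.nth Nat.Prime (c + 1) - m) (mem_Ioc.mpr ⟨by omega, by omega⟩) ?_
      rw [Nat.add_sub_cancel' (by omega)]
      exact Nat.prime_nth_prime _
    have h4 : Nat.nth Nat.Prime (c + 1) ≤ 2 * m := by
      obtain ⟨q, hq, hq1, hq2⟩ := Nat.exists_prime_lt_and_le_two_mul m (by omega)
      refine le_trans ?_ hq2
      rw [← Nat.nth_count hq, ← hc]
      exact Nat.nth_monotone hinf (Nat.count_monotone _ hq1)
    have h1' : (Nat.nth Nat.Prime c : ℝ) ≤ m := by exact_mod_cast Nat.lt_succ_iff.mp h1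
    have h3' : (m : ℝ) + y + 1 ≤ Nat.nth Nat.Prime (c + 1) := by exact_mod_cast h3
    have h4' : (Nat.nth Nat.Prime (c + 1) : ℝ) ≤ 2 * m := by exact_mod_cast h4
    have hy0 : (0 : ℝ) ≤ y := Nat.cast_nonneg _
    refine ⟨c, m, m + y + 1, hAm, hmA, h1', h3', by linarith, ?_⟩
    have : (1 / 4 - ε) * F ≤ (1 / 4 - 20 * η) * F :=
      mul_le_mul_of_nonneg_right (by linarith) (by linarith)
    linarith
  obtain ⟨Z₀, hZ₀⟩ := eventually_atTop.mp key
  refine ⟨exp Z₀, fun X hX A hA => ?_⟩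
  have hX0 : 0 < X := (exp_pos _).trans_le hX
  have := hZ₀ (log X) ((le_log_iff_exp_le hX0).mpr hX) A (by rwa [exp_log hX0])
  rwa [exp_log hX0] at this

end Pool.Agent.Results.MP_3bc45c_nt.LongGaps
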