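import Pool.Agent.P.MP_3bc45c_nt.PolyAsymp

/-!
Long runs of non-prime values of an arbitrary non-constant polynomial: every window of length `X`
contains the start of a run of `c log X log log X` consecutive integers at which `|f|` is not a
prime number.
-/

open Finset Real Filter

namespace Pool.Agent.Results.MP_3bc45c_nt.PolyRuns

open Pool.Agent.P.MP_3bc45c_nt Polynomial

theorem result : ∀ f : Polynomial ℚ, 1 ≤ f.natDegree →
    ∃ c : ℝ, 0 < c ∧ ∃ X₀ : ℝ, ∀ X : ℝ, X₀ ≤ X → ∀ A : ℝ, X ≤ A →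
      ∃ n : ℕ, A ≤ (n : ℝ) ∧ (n : ℝ) ≤ A + X ∧
        ∀ j : ℕ, (j : ℝ) ≤ c * log X * log (log X) →
          ∀ p : ℕ, p.Prime → |f.eval ((n + j : ℕ) : ℚ)| ≠ (p : ℚ) := by
  intro f hf
  obtain ⟨D, hD, hF⟩ := IsLocalization.integerNormalization_spec (nonZeroDivisors ℤ) f
  set F := IsLocalization.integerNormalization (nonZeroDivisors ℤ) f with hFdef
  have hD0 : D ≠ 0 := nonZeroDivisors.ne_zero hD
  have hdeg : F.natDegree = f.natDegree := by
    rw [← natDegree_map_eq_of_injective (RingHom.injective_int (algebraMap ℤ ℚ)) F, hF,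
      natDegree_smul _ hD0]
  have hev : ∀ m : ℤ, ((F.eval m : ℤ) : ℚ) = D * f.eval (m : ℚ) := fun m => by
    have h := eval_intCast_map (algebraMap ℤ ℚ) F m
    rw [hF, eval_smul, eq_intCast, Int.cast_id, zsmul_eq_mul] at h
    exact h.symm
  have hF1 : 1 ≤ F.natDegree := hdeg ▸ hf
  have hF0 : F ≠ 0 := by intro h; rw [h] at hF1; simp at hF1
  have ha : F.leadingCoeff ≠ 0 := leadingCoeff_ne_zero.mpr hF0
  obtain ⟨g, hg, hgF⟩ := exists_good hF1
  obtain ⟨c, hc, hrun⟩ := poly_run hg (D.natAbs + F.leadingCoeff.natAbs)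
  have hne : F - C (F.eval 0) ≠ 0 := fun h => by
    rw [sub_eq_zero] at h
    rw [h, natDegree_C] at hF1
    omega
  obtain ⟨x₀, hx₀⟩ := exists_max_root _ hne
  have key : ∀ᶠ Z : ℝ in atTop, ∀ A : ℝ, exp Z ≤ A →
      ∃ n : ℕ, A ≤ (n : ℝ) ∧ (n : ℝ) ≤ A + exp Z ∧ ∀ j : ℕ, (j : ℝ) ≤ c * Z * log Z →
        ∀ p : ℕ, p.Prime → |f.eval ((n + j : ℕ) : ℚ)| ≠ (p : ℚ) := by
    filter_upwards [hrun, eventually_ge_atTop (2 : ℝ), eventually_ge_atTop (x₀ : ℝ),
      tendsto_log_atTop.eventually_ge_atTop 2,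
      eventually_ge_atTop (2 * (|(D : ℝ)| + |((F.eval 0 : ℤ) : ℝ)|))]
      with Z hrun hZ hZx hL hZD A hA
    have hZ1 := add_one_le_exp Z
    have hA0 : 0 ≤ A := by linarith
    obtain ⟨n, hn1, hn2, hn3⟩ := hrun ⌈A⌉₊
    have hAn : A ≤ n := (Nat.le_ceil A).trans (by exact_mod_cast hn1)
    refine ⟨n, hAn, by linarith [Nat.ceil_lt_add_one hA0], fun j hj p hp he => ?_⟩
    obtain ⟨q, hq, hBq, hqE, hqd⟩ := hn3 j hj
    set m : ℤ := ((n + j : ℕ) : ℤ) with hm
    have hmR : exp Z ≤ (m : ℝ) := by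
      rw [hm]; push_cast
      linarith [Nat.cast_nonneg (α := ℝ) j]
    have hq' := Nat.prime_iff_prime_int.mp hq
    have h1 : (q : ℤ) ∣ F.eval m := by
      refine (hq'.dvd_or_dvd (hqd.trans (hgF m))).resolve_left fun h => ?_
      have := Nat.le_of_dvd (Int.natAbs_pos.mpr ha) (Int.natCast_dvd.mp (hq'.dvd_of_dvd_pow h))
      omega
    have h2 : |F.eval m| = |D| * p := by
      have h3 : ((|F.eval m| : ℤ) : ℚ) = ((|D| * p : ℤ) : ℚ) := by
        rw [Int.cast_abs, hev, abs_mul, hm, Int.cast_natCast, he]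
        push_cast
        rfl
      exact_mod_cast h3
    have h3 : q = p := by
      have h4 : (q : ℤ) ∣ |D| * p := h2 ▸ (dvd_abs _ _).mpr h1
      rcases hq'.dvd_or_dvd h4 with h | h
      · have := Nat.le_of_dvd (Int.natAbs_pos.mpr hD0)
          (Int.natCast_dvd.mp ((dvd_abs _ _).mp h))
        omega
      · exact (Nat.prime_dvd_prime_iff_eq hq hp).mp (Int.natCast_dvd_natCast.mp h)
    have h4 : F.eval m - F.eval 0 ≠ 0 := fun h => by
      have h5 : (m : ℝ) ≤ x₀ := by exact_mod_cast hx₀ m (by simpa [IsRoot] using h)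
      linarith
    have h5 : m ≤ |F.eval m - F.eval 0| := Int.le_of_dvd (abs_pos.mpr h4)
      ((dvd_abs _ _).mpr (by simpa using sub_dvd_eval_sub m 0 F))
    have h6 : m ≤ |D| * p + |F.eval 0| := h5.trans (h2 ▸ abs_sub _ _)
    have h7 : (m : ℝ) ≤ |(D : ℝ)| * p + |((F.eval 0 : ℤ) : ℝ)| := by exact_mod_cast h6
    have h8 : (p : ℝ) ≤ exp (Z / 2) := by
      refine (h3 ▸ hqE).trans (exp_le_exp.mpr ?_)
      exact div_le_div_of_nonneg_left (by linarith) (by norm_num)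
        (hL.trans (le_self_pow₀ (by linarith) two_ne_zero))
    have h9 : exp Z = exp (Z / 2) * exp (Z / 2) := by rw [← exp_add]; congr 1; ring
    have h10 := add_one_le_exp (Z / 2)
    have h11 := mul_le_mul_of_nonneg_left h8 (abs_nonneg (D : ℝ))
    have h12 : |((F.eval 0 : ℤ) : ℝ)| ≤ |((F.eval 0 : ℤ) : ℝ)| * exp (Z / 2) :=
      le_mul_of_one_le_right (abs_nonneg _) (by linarith)
    have h13 : (|(D : ℝ)| + |((F.eval 0 : ℤ) : ℝ)|) * exp (Z / 2) < exp (Z / 2) * exp (Z / 2) :=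
      mul_lt_mul_of_pos_right (by linarith) (exp_pos _)
    linarith
  obtain ⟨X₀, hX₀⟩ := eventually_atTop.mp
    ((tendsto_log_atTop.eventually key).and (eventually_gt_atTop 0))
  refine ⟨c, hc, X₀, fun X hX A hA => ?_⟩
  obtain ⟨h1, h2⟩ := hX₀ X hX
  rw [exp_log h2] at h1
  exact h1 A hA

end Pool.Agent.Results.MP_3bc45c_nt.PolyRuns
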