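import Pool.Agent.P.MP_3bc45c_nt.SI.Final

open Polynomial

open Pool.Agent.P.MP_a1177c_nt.HL Pool.Agent.P.MP_3bc45c_nt.SI in
/-- Prime polynomial theorem, with a power saving, in every short interval of length
`q ^ h`, `h ≥ (1 / 2 - 10 ^ (-12)) n`, of monic polynomials of degree `n` over a finite field
of characteristic two. -/
theorem Pool.Agent.Results.MP_3bc45c_nt.ShortIntervals.result :
    ∃ c : ℝ, 0 < c ∧ ∀ (K : Type*) [Field K] [Fintype K] [CharP K 2], ∃ n₀ : ℕ, ∀ n ≥ n₀,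
      ∀ h : ℕ, (1 / 2 - 1 / 10 ^ 12 : ℝ) * n ≤ h → h ≤ n →
        ∀ f : K[X], f.Monic → f.natDegree = n →
          |(n : ℝ) * (Nat.card {a : K[X] // a.degree < h ∧ Irreducible (f + a)} : ℝ) -
              (Fintype.card K : ℝ) ^ h| ≤ (Fintype.card K : ℝ) ^ ((h : ℝ) - c * n) := by
  classical
  obtain ⟨s, hs, hs'⟩ : ∃ s : ℕ, 10 ^ 8 ≤ s ∧ s ≤ 10 ^ 8 := ⟨_, le_rfl, le_rfl⟩
  obtain ⟨c, hc0, hc1, hc2⟩ := exists_const s hs
  refine ⟨c / 2, half_pos hc0, fun K _ _ _ => ?_⟩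
  obtain ⟨n₀, H⟩ := all_lengths (K := K) s hs hc0 hc1 hc2
  refine ⟨n₀, fun n hn h h1 h2 f hf hd => ?_⟩
  have h3 : Nat.card {a : K[X] // a.degree < h ∧ Irreducible (f + a)} =
      ((Pl K h).filter fun a => Irreducible (f + a)).card := by
    refine Nat.subtype_card _ fun a => ?_
    rw [Finset.mem_filter, mem_Pl]
  rw [h3]
  refine H n hn h ?_ h2 f (mem_Mn.2 ⟨hf, hd⟩)
  obtain rfl : s = 10 ^ 8 := le_antisymm hs' hs
  have h4 : (1000 * 10 ^ 8 * n : ℝ) ≤ 2000 * 10 ^ 8 * h + n := by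
    have : (0 : ℝ) ≤ n := Nat.cast_nonneg n
    linarith
  exact_mod_cast h4
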